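import Pool.Agent.H252.VR.Main

/-!
# Rokhlin actions with positive radius of comparison and unique trace

For every finite group `G` there is a simple separable unital stably finite C*-algebra `A` with
exactly one tracial state and radius of comparison at least one which carries an action of `G` with
the Rokhlin property.
-/

set_option autoImplicit false

namespace Pool.Agent.Results.MP_953b63_an.RokhlinUniqueTrace

open Pool.Agent.H252.VR.Defs

theorem result (G : Type) [Group G] [Fintype G] :
    ∃ (A : Type) (_ : CStarAlgebra A), TopologicalSpace.SeparableSpace A ∧ IsSimpleRing A ∧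
      StablyFinite A ∧ (∃! τ : A →ₗ[ℂ] ℂ, IsTracialState τ) ∧ 1 ≤ rc A ∧
      ∃ α : G →* (A ≃⋆ₐ[ℂ] A), Rokhlin α :=
  Pool.Agent.H252.VR.main G

end Pool.Agent.Results.MP_953b63_an.RokhlinUniqueTrace
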